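import Mathlib

/-!
# Newton polygons above Hodge polygons
-/

set_option autoImplicit false

open Finset

namespace Pool.Agent.V5helper77.OP

/-- The polygon with the slopes `n` lies on or above the polygon with the slopes `h`, and both have the
same end points. -/
def Above (n h : Multiset ℚ) : Prop :=
  n.card = h.card ∧ n.sum = h.sum ∧
    ∀ k : ℕ, ((h.sort (· ≤ ·)).take k).sum ≤ ((n.sort (· ≤ ·)).take k).sum

/-- The sums of an element of `s` and an element of `t` (the slopes of a tensor product). -/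
def pairSum (s t : Multiset ℚ) : Multiset ℚ := (s ×ˢ t).map fun x => x.1 + x.2

/-- the sum of the squares -/
def sq (s : Multiset ℚ) : ℚ := (s.map fun x => x ^ 2).sum

lemma sq_add (s t : Multiset ℚ) : sq (s + t) = sq s + sq t := by
  rw [sq, Multiset.map_add, Multiset.sum_add, sq, sq]

lemma sq_nsmul (k : ℕ) (s : Multiset ℚ) : sq (k • s) = k * sq s := by
  rw [sq, Multiset.map_nsmul, Multiset.sum_nsmul, nsmul_eq_mul, sq]

lemma sq_sum {ι : Type*} (S : Finset ι) (f : ι → Multiset ℚ) : sq (∑ i ∈ S, f i) = ∑ i ∈ S, sq (f i) := by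
  classical
  induction S using Finset.induction_on with
  | empty => simp [sq]
  | insert a S ha ih => rw [Finset.sum_insert ha, sq_add, Finset.sum_insert ha, ih]

lemma parts {m : ℕ} (a b : ℕ → ℚ) (ha : ∀ i, i + 1 < m → a i ≤ a (i + 1))
    (h : ∀ k, ∑ i ∈ range k, b i ≤ ∑ i ∈ range k, a i)
    (he : ∑ i ∈ range m, b i = ∑ i ∈ range m, a i) :
    ∑ i ∈ range m, (b i - a i) ^ 2 ≤ ∑ i ∈ range m, b i ^ 2 - ∑ i ∈ range m, a i ^ 2 := by
  have h1 : 0 ≤ ∑ i ∈ range m, a i * (b i - a i) := by
    have h2 := Finset.sum_range_by_parts (R := ℚ) a (fun i => b i - a i) m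
    simp only [smul_eq_mul, Finset.sum_sub_distrib] at h2
    rw [h2, he, sub_self, mul_zero, zero_sub, neg_nonneg]
    apply Finset.sum_nonpos
    intro i hi
    have h3 : i + 1 < m := by
      have := Finset.mem_range.mp hi
      omega
    have h4 := ha i h3
    have h5 := h (i + 1)
    exact mul_nonpos_of_nonneg_of_nonpos (by linarith) (by linarith)
  have h2 : ∑ i ∈ range m, b i ^ 2 - ∑ i ∈ range m, a i ^ 2 =
      ∑ i ∈ range m, (b i - a i) ^ 2 + 2 * ∑ i ∈ range m, a i * (b i - a i) := by
    rw [← Finset.sum_sub_distrib, Finset.mul_sum, ← Finset.sum_add_distrib]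
    apply Finset.sum_congr rfl
    intro i _
    ring
  rw [h2]
  linarith

lemma take_sum (L : List ℚ) (k : ℕ) : (L.take k).sum = ∑ i ∈ range k, L.getD i 0 := by
  induction L generalizing k with
  | nil => simp
  | cons x L ih =>
    cases k with
    | zero => simp
    | succ k =>
      rw [List.take_succ_cons, List.sum_cons, ih, Finset.sum_range_succ']
      simp [add_comm]

lemma list_sq (L : List ℚ) : (L.map fun x => x ^ 2).sum = ∑ i ∈ range L.length, L.getD i 0 ^ 2 := by
  induction L with
  | nil => simp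
  | cons x L ih =>
    rw [List.map_cons, List.sum_cons, ih, List.length_cons, Finset.sum_range_succ']
    simp [add_comm]

lemma sq_eq (s : Multiset ℚ) : sq s = ∑ i ∈ range s.card, (s.sort (· ≤ ·)).getD i 0 ^ 2 := by
  have h := list_sq (s.sort (· ≤ ·))
  rw [Multiset.length_sort] at h
  rw [← h, sq]
  conv_lhs => rw [← Multiset.sort_eq s (· ≤ ·)]
  rw [Multiset.map_coe, Multiset.sum_coe]

lemma sum_eq (s : Multiset ℚ) : s.sum = ∑ i ∈ range s.card, (s.sort (· ≤ ·)).getD i 0 := by
  have h := take_sum (s.sort (· ≤ ·)) (s.sort (· ≤ ·)).length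
  rw [List.take_length, Multiset.length_sort] at h
  rw [← h]
  conv_lhs => rw [← Multiset.sort_eq s (· ≤ ·)]
  rw [Multiset.sum_coe]

lemma Above.key {n h : Multiset ℚ} (H : Above n h) :
    ∑ i ∈ range n.card, ((h.sort (· ≤ ·)).getD i 0 - (n.sort (· ≤ ·)).getD i 0) ^ 2 ≤
      sq h - sq n := by
  obtain ⟨h1, h2, h3⟩ := H
  rw [sq_eq h, sq_eq n, ← h1]
  apply parts
  · intro i hi
    have hs : (n.sort (· ≤ ·)).Pairwise (· ≤ ·) := Multiset.pairwise_sort n (· ≤ ·)
    have hl : (n.sort (· ≤ ·)).length = n.card := Multiset.length_sort _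
    rw [List.getD_eq_getElem _ _ (by omega), List.getD_eq_getElem _ _ (by omega)]
    exact (List.pairwise_iff_getElem.mp hs) i (i + 1) (by omega) (by omega) (by omega)
  · intro k
    rw [← take_sum, ← take_sum]
    exact h3 k
  · rw [sum_eq, sum_eq, ← h1] at h2
    exact h2.symm

lemma Above.sq_le {n h : Multiset ℚ} (H : Above n h) : sq n ≤ sq h := by
  have h1 := H.key
  have h2 : 0 ≤ ∑ i ∈ range n.card, ((h.sort (· ≤ ·)).getD i 0 - (n.sort (· ≤ ·)).getD i 0) ^ 2 :=
    Finset.sum_nonneg fun i _ => sq_nonneg _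
  linarith

lemma Above.eq_of_sq {n h : Multiset ℚ} (H : Above n h) (he : sq h ≤ sq n) : n = h := by
  have h1 := H.key
  have h2 : ∑ i ∈ range n.card, ((h.sort (· ≤ ·)).getD i 0 - (n.sort (· ≤ ·)).getD i 0) ^ 2 ≤ 0 := by
    linarith
  have h3 := (Finset.sum_eq_zero_iff_of_nonneg (fun i _ => sq_nonneg
    ((h.sort (· ≤ ·)).getD i 0 - (n.sort (· ≤ ·)).getD i 0))).mp
    (le_antisymm h2 (Finset.sum_nonneg fun i _ => sq_nonneg _))
  have h4 : h.sort (· ≤ ·) = n.sort (· ≤ ·) := by
    have l1 : (h.sort (· ≤ ·)).length = h.card := Multiset.length_sort _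
    have l2 : (n.sort (· ≤ ·)).length = n.card := Multiset.length_sort _
    have l3 := H.1
    apply List.ext_getElem (by omega)
    intro i hi hi'
    have h5 := h3 i (Finset.mem_range.mpr (by omega))
    rw [List.getD_eq_getElem _ _ hi, List.getD_eq_getElem _ _ hi', sq_eq_zero_iff, sub_eq_zero] at h5
    exact h5
  rw [← Multiset.sort_eq n (· ≤ ·), ← Multiset.sort_eq h (· ≤ ·), h4]

lemma pairSum_cons (a : ℚ) (s t : Multiset ℚ) :
    pairSum (a ::ₘ s) t = t.map (fun y => a + y) + pairSum s t := by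
  rw [pairSum, Multiset.cons_product, Multiset.map_add, Multiset.map_map]
  rfl

lemma pairSum_zero (t : Multiset ℚ) : pairSum 0 t = 0 := rfl

lemma card_pairSum (s t : Multiset ℚ) : (pairSum s t).card = s.card * t.card := by
  rw [pairSum, Multiset.card_map, Multiset.card_product]

lemma sq_shift (a : ℚ) (t : Multiset ℚ) :
    sq (t.map fun y => a + y) = t.card * a ^ 2 + 2 * a * t.sum + sq t := by
  induction t using Multiset.induction_on with
  | empty => simp [sq]
  | cons b t ih =>
    simp only [sq, Multiset.map_cons, Multiset.sum_cons, Multiset.card_cons] at ih ⊢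
    rw [ih]
    push_cast
    ring

lemma sq_pairSum (s t : Multiset ℚ) :
    sq (pairSum s t) = t.card * sq s + 2 * s.sum * t.sum + s.card * sq t := by
  induction s using Multiset.induction_on with
  | empty => simp [pairSum_zero, sq]
  | cons a s ih =>
    rw [pairSum_cons, sq_add, ih, sq_shift]
    simp only [sq, Multiset.map_cons, Multiset.sum_cons, Multiset.card_cons]
    push_cast
    ring

/-- If a sum is ordinary, the summands are. -/
lemma eq_of_add {n n' h h' : Multiset ℚ} (H : Above n h) (H' : Above n' h') (he : n + n' = h + h') :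
    n = h ∧ n' = h' := by
  have h1 := congrArg sq he
  rw [sq_add, sq_add] at h1
  have h2 := H.sq_le
  have h3 := H'.sq_le
  exact ⟨H.eq_of_sq (by linarith), H'.eq_of_sq (by linarith)⟩

/-- If a tensor product is ordinary and not zero, the factors are. -/
lemma eq_of_pairSum {n n' h h' : Multiset ℚ} (H : Above n h) (H' : Above n' h')
    (hne : h ≠ 0) (hne' : h' ≠ 0) (he : pairSum n n' = pairSum h h') : n = h ∧ n' = h' := by
  have h1 := congrArg sq he
  rw [sq_pairSum, sq_pairSum, H.1, H'.1, H.2.1, H'.2.1] at h1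
  have h2 := H.sq_le
  have h3 := H'.sq_le
  have c1 : (0 : ℚ) < h.card := by exact_mod_cast Multiset.card_pos.mpr hne
  have c2 : (0 : ℚ) < h'.card := by exact_mod_cast Multiset.card_pos.mpr hne'
  constructor
  · apply H.eq_of_sq
    by_contra hc
    rw [not_le] at hc
    nlinarith
  · apply H'.eq_of_sq
    by_contra hc
    rw [not_le] at hc
    nlinarith

lemma pairSum_ne_zero {s t : Multiset ℚ} (hs : s ≠ 0) (ht : t ≠ 0) : pairSum s t ≠ 0 := by
  rw [← Multiset.card_pos, card_pairSum]
  exact Nat.mul_pos (Multiset.card_pos.mpr hs) (Multiset.card_pos.mpr ht)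

lemma Above.zero {n : Multiset ℚ} (H : Above n 0) : n = 0 := by
  rw [← Multiset.card_eq_zero, H.1, Multiset.card_zero]

/-- Several places: `n i` is above `h`, with the weights `d i ≥ 1`, and the sum of the `d i • n i` is above
`m • h`. -/
lemma eq_of_weights {ι : Type*} (S : Finset ι) (d : ι → ℕ) (hd : ∀ i ∈ S, 1 ≤ d i)
    (n : ι → Multiset ℚ) (h : Multiset ℚ) (hn : ∀ i ∈ S, Above (n i) h) (m : ℕ)
    (he : ∑ i ∈ S, d i • n i = m • h) : ∀ i ∈ S, n i = h := by
  intro i hi
  by_cases h0 : h = 0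
  · subst h0
    exact (hn i hi).zero
  have c : 0 < h.card := Multiset.card_pos.mpr h0
  have hm : ∑ i ∈ S, d i = m := by
    have h1 := congrArg Multiset.card he
    rw [Multiset.card_nsmul, Multiset.card_sum] at h1
    have h2 : ∑ j ∈ S, (d j • n j).card = (∑ j ∈ S, d j) * h.card := by
      rw [Finset.sum_mul]
      apply Finset.sum_congr rfl
      intro j hj
      rw [Multiset.card_nsmul, (hn j hj).1]
    rw [h2] at h1
    exact Nat.eq_of_mul_eq_mul_right c h1
  have h2 := congrArg sq he
  rw [sq_sum, sq_nsmul, ← hm] at h2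
  have h3 : ∑ j ∈ S, (d j : ℚ) * (sq h - sq (n j)) = 0 := by
    have : ∑ j ∈ S, sq (d j • n j) = ∑ j ∈ S, (d j : ℚ) * sq (n j) :=
      Finset.sum_congr rfl fun j _ => sq_nsmul _ _
    rw [this] at h2
    simp only [mul_sub, Finset.sum_sub_distrib]
    rw [h2, ← Finset.sum_mul]
    push_cast
    ring
  have h4 := (Finset.sum_eq_zero_iff_of_nonneg (fun j hj => mul_nonneg (Nat.cast_nonneg (d j))
    (sub_nonneg.mpr (hn j hj).sq_le))).mp h3 i hi
  have h5 : (d i : ℚ) ≠ 0 := by
    have := hd i hi
    exact_mod_cast (by omega : d i ≠ 0)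
  have h6 : sq h - sq (n i) = 0 := (mul_eq_zero.mp h4).resolve_left h5
  exact (hn i hi).eq_of_sq (by linarith)

/-- Over `ℚ`: if the sum of the weights is one the sum is one of the terms. -/
lemma eq_of_weight_one {ι : Type*} (S : Finset ι) (d : ι → ℕ) (hd : ∀ i ∈ S, 1 ≤ d i)
    (n : ι → Multiset ℚ) (h N : Multiset ℚ) (hn : ∀ i ∈ S, (n i).card = h.card)
    (hN : N.card = h.card) (he : N = ∑ i ∈ S, d i • n i) (i : ι) (hi : i ∈ S) (hni : n i = h) :
    N = h := by
  classical
  by_cases h0 : h = 0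
  · subst h0
    rw [← Multiset.card_eq_zero, hN, Multiset.card_zero]
  have c : 0 < h.card := Multiset.card_pos.mpr h0
  have hm : ∑ i ∈ S, d i = 1 := by
    have h1 := congrArg Multiset.card he
    rw [Multiset.card_sum, hN] at h1
    have h2 : ∑ j ∈ S, (d j • n j).card = (∑ j ∈ S, d j) * h.card := by
      rw [Finset.sum_mul]
      apply Finset.sum_congr rfl
      intro j hj
      rw [Multiset.card_nsmul, hn j hj]
    rw [h2] at h1
    have h3 : (∑ i ∈ S, d i) * h.card = 1 * h.card := by rw [one_mul, ← h1]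
    exact Nat.eq_of_mul_eq_mul_right c h3
  have h3 : S = {i} := by
    rw [Finset.eq_singleton_iff_unique_mem]
    refine ⟨hi, fun j hj => ?_⟩
    by_contra hne
    have h4 : ∑ k ∈ ({i, j} : Finset ι), d k ≤ ∑ k ∈ S, d k := by
      apply Finset.sum_le_sum_of_subset
      intro k hk
      rcases Finset.mem_insert.mp hk with rfl | hk
      · exact hi
      · rw [Finset.mem_singleton.mp hk]
        exact hj
    rw [Finset.sum_pair (Ne.symm hne)] at h4
    have := hd i hi
    have := hd j hj
    omega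
  subst h3
  rw [Finset.sum_singleton] at he hm
  rw [he, hm, one_nsmul, hni]

end Pool.Agent.V5helper77.OP
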