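import Pool.Agent.Q282.UZ.Sys

/-!
# Products of systems of bilinear equations
-/

set_option autoImplicit false

open MvPolynomial Pool.Agent.Y116.UV Pool.Agent.Q282.UZ
open scoped TensorProduct

namespace Pool.Agent.V5helper77.OP

variable {R : Type} [CommRing R]

section basic

/-- the algebra of a system -/
abbrev SA (R : Type) [CommRing R] {β γ κ : Type} (E : κ → Finset (β × γ)) : Type :=
  MvPolynomial (β ⊕ γ) R ⧸ Ideal.span (Set.range fun l => few R (E l))

variable {β γ κ : Type} (E : κ → Finset (β × γ))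

/-- the variables -/
noncomputable def sv (R : Type) [CommRing R] {β γ κ : Type} (E : κ → Finset (β × γ)) (x : β ⊕ γ) :
    SA R E := Ideal.Quotient.mk _ (X x)

lemma mk_few (l : κ) : (Ideal.Quotient.mk (Ideal.span (Set.range fun l => few R (E l)))
    (few R (E l))) = ∑ e ∈ E l, sv R E (Sum.inl e.1) * sv R E (Sum.inr e.2) := by
  rw [few, map_sum]
  simp only [map_mul]
  rfl

lemma sv_rel (l : κ) : ∑ e ∈ E l, sv R E (Sum.inl e.1) * sv R E (Sum.inr e.2) = 0 := by
  rw [← mk_few]
  exact Ideal.Quotient.eq_zero_iff_mem.mpr (Ideal.subset_span ⟨l, rfl⟩)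

variable {B : Type} [CommRing B] [Algebra R B]

/-- the universal property -/
noncomputable def saLift (v : β ⊕ γ → B) (h : ∀ l, ∑ e ∈ E l, v (Sum.inl e.1) * v (Sum.inr e.2) = 0) :
    SA R E →ₐ[R] B :=
  Ideal.Quotient.liftₐ _ (aeval v) (by
    intro a ha
    have h : Ideal.span (Set.range fun k => few R (E k)) ≤
        RingHom.ker (aeval v : MvPolynomial _ R →ₐ[R] _) := by
      rw [Ideal.span_le]
      rintro _ ⟨k, rfl⟩
      change aeval v (few R (E k)) = 0
      rw [← h k, few, map_sum]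
      simp only [map_mul, aeval_X]
    exact h ha)

lemma saLift_sv (v : β ⊕ γ → B) (h : ∀ l, ∑ e ∈ E l, v (Sum.inl e.1) * v (Sum.inr e.2) = 0)
    (x : β ⊕ γ) : saLift (R := R) E v h (sv R E x) = v x := by
  change aeval v (X x) = _
  rw [aeval_X]

lemma sa_ext {B : Type} [Semiring B] [Algebra R B] {f g : SA R E →ₐ[R] B} (h : ∀ x, f (sv R E x) = g (sv R E x)) : f = g := by
  apply Ideal.Quotient.algHom_ext
  apply MvPolynomial.algHom_ext
  intro x
  exact h x

end basic

section

variable {β γ κ β' γ' κ' : Type} (E : κ → Finset (β × γ)) (E' : κ' → Finset (β' × γ'))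

/-- The two systems together, in separate variables. -/
def both (k : κ ⊕ κ') : Finset ((β ⊕ β') × (γ ⊕ γ')) :=
  k.elim (fun l => (E l).map (Function.Embedding.prodMap Function.Embedding.inl Function.Embedding.inl))
    (fun l => (E' l).map (Function.Embedding.prodMap Function.Embedding.inr Function.Embedding.inr))

lemma sum_both_inl {M : Type} [AddCommMonoid M] (l : κ) (f : (β ⊕ β') × (γ ⊕ γ') → M) :
    ∑ e ∈ both E E' (Sum.inl l), f e = ∑ e ∈ E l, f (Sum.inl e.1, Sum.inl e.2) := by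
  rw [both, Sum.elim_inl, Finset.sum_map]
  rfl

lemma sum_both_inr {M : Type} [AddCommMonoid M] (l : κ') (f : (β ⊕ β') × (γ ⊕ γ') → M) :
    ∑ e ∈ both E E' (Sum.inr l), f e = ∑ e ∈ E' l, f (Sum.inr e.1, Sum.inr e.2) := by
  rw [both, Sum.elim_inr, Finset.sum_map]
  rfl

/-- the values of the variables in the tensor product -/
noncomputable def tv (R : Type) [CommRing R] {β γ κ β' γ' κ' : Type} (E : κ → Finset (β × γ))
    (E' : κ' → Finset (β' × γ')) : (β ⊕ β') ⊕ (γ ⊕ γ') → SA R E ⊗[R] SA R E'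
  | Sum.inl (Sum.inl i) => sv R E (Sum.inl i) ⊗ₜ[R] 1
  | Sum.inl (Sum.inr i) => 1 ⊗ₜ[R] sv R E' (Sum.inl i)
  | Sum.inr (Sum.inl j) => sv R E (Sum.inr j) ⊗ₜ[R] 1
  | Sum.inr (Sum.inr j) => 1 ⊗ₜ[R] sv R E' (Sum.inr j)

lemma tv_both (k : κ ⊕ κ') :
    ∑ e ∈ both E E' k, tv R E E' (Sum.inl e.1) * tv R E E' (Sum.inr e.2) = 0 := by
  rcases k with l | l
  · rw [sum_both_inl]
    have h1 : ∀ e : β × γ, tv R E E' (Sum.inl (Sum.inl e.1)) * tv R E E' (Sum.inr (Sum.inl e.2)) =
        (sv R E (Sum.inl e.1) * sv R E (Sum.inr e.2)) ⊗ₜ[R] 1 := by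
      intro e
      rw [tv, tv, Algebra.TensorProduct.tmul_mul_tmul, one_mul]
    rw [Finset.sum_congr rfl fun e _ => h1 e, ← TensorProduct.sum_tmul, sv_rel,
      TensorProduct.zero_tmul]
  · rw [sum_both_inr]
    have h1 : ∀ e : β' × γ', tv R E E' (Sum.inl (Sum.inr e.1)) * tv R E E' (Sum.inr (Sum.inr e.2)) =
        1 ⊗ₜ[R] (sv R E' (Sum.inl e.1) * sv R E' (Sum.inr e.2)) := by
      intro e
      rw [tv, tv, Algebra.TensorProduct.tmul_mul_tmul, one_mul]
    rw [Finset.sum_congr rfl fun e _ => h1 e, ← TensorProduct.tmul_sum, sv_rel,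
      TensorProduct.tmul_zero]

/-- the variables of the first system -/
def vl : β ⊕ γ → (β ⊕ β') ⊕ (γ ⊕ γ')
  | Sum.inl i => Sum.inl (Sum.inl i)
  | Sum.inr j => Sum.inr (Sum.inl j)

/-- the variables of the second system -/
def vr : β' ⊕ γ' → (β ⊕ β') ⊕ (γ ⊕ γ')
  | Sum.inl i => Sum.inl (Sum.inr i)
  | Sum.inr j => Sum.inr (Sum.inr j)

/-- from the first factor -/
noncomputable def frL (R : Type) [CommRing R] {β γ κ β' γ' κ' : Type} (E : κ → Finset (β × γ))
    (E' : κ' → Finset (β' × γ')) : SA R E →ₐ[R] SA R (both E E') :=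
  saLift E (fun x => sv R (both E E') (vl x)) fun l => by
    have h := sv_rel (R := R) (both E E') (Sum.inl l)
    rw [sum_both_inl] at h
    exact h

/-- from the second factor -/
noncomputable def frR (R : Type) [CommRing R] {β γ κ β' γ' κ' : Type} (E : κ → Finset (β × γ))
    (E' : κ' → Finset (β' × γ')) : SA R E' →ₐ[R] SA R (both E E') :=
  saLift E' (fun x => sv R (both E E') (vr x)) fun l => by
    have h := sv_rel (R := R) (both E E') (Sum.inr l)
    rw [sum_both_inr] at h
    exact h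

/-- from the tensor product -/
noncomputable def frT (R : Type) [CommRing R] {β γ κ β' γ' κ' : Type} (E : κ → Finset (β × γ))
    (E' : κ' → Finset (β' × γ')) : SA R E ⊗[R] SA R E' →ₐ[R] SA R (both E E') :=
  Algebra.TensorProduct.productMap (frL R E E') (frR R E E')

/-- to the tensor product -/
noncomputable def toT (R : Type) [CommRing R] {β γ κ β' γ' κ' : Type} (E : κ → Finset (β × γ))
    (E' : κ' → Finset (β' × γ')) : SA R (both E E') →ₐ[R] SA R E ⊗[R] SA R E' :=
  saLift (both E E') (tv R E E') (tv_both E E')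

lemma toT_sv (x : (β ⊕ β') ⊕ (γ ⊕ γ')) : toT R E E' (sv R (both E E') x) = tv R E E' x :=
  saLift_sv _ _ _ _

lemma frT_left (x : β ⊕ γ) : frT R E E' (sv R E x ⊗ₜ[R] 1) = sv R (both E E') (vl x) := by
  rw [frT, Algebra.TensorProduct.productMap_apply_tmul, map_one, mul_one]
  exact saLift_sv _ _ _ _

lemma frT_right (x : β' ⊕ γ') : frT R E E' (1 ⊗ₜ[R] sv R E' x) = sv R (both E E') (vr x) := by
  rw [frT, Algebra.TensorProduct.productMap_apply_tmul, map_one, one_mul]
  exact saLift_sv _ _ _ _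

lemma tv_vl (x : β ⊕ γ) : tv R E E' (vl x) = sv R E x ⊗ₜ[R] 1 := by
  rcases x with i | j <;> rfl

lemma tv_vr (x : β' ⊕ γ') : tv R E E' (vr x) = 1 ⊗ₜ[R] sv R E' x := by
  rcases x with i | j <;> rfl

lemma frT_toT : (frT R E E').comp (toT R E E') = AlgHom.id R _ := by
  apply sa_ext
  intro x
  rw [AlgHom.comp_apply, toT_sv, AlgHom.id_apply]
  rcases x with (i | i) | (j | j)
  · exact frT_left E E' (Sum.inl i)
  · exact frT_right E E' (Sum.inl i)
  · exact frT_left E E' (Sum.inr j)
  · exact frT_right E E' (Sum.inr j)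

lemma toT_frL (x : SA R E) : toT R E E' (frL R E E' x) = x ⊗ₜ[R] 1 := by
  have h : (toT R E E').comp (frL R E E') =
      (Algebra.TensorProduct.includeLeft : SA R E →ₐ[R] SA R E ⊗[R] SA R E') := by
    apply sa_ext (R := R) E
    intro y
    have h1 : frL R E E' (sv R E y) = sv R (both E E') (vl y) := saLift_sv _ _ _ _
    change toT R E E' (frL R E E' (sv R E y)) = sv R E y ⊗ₜ[R] 1
    rw [h1, toT_sv, tv_vl]
  exact DFunLike.congr_fun h x

lemma toT_frR (x : SA R E') : toT R E E' (frR R E E' x) = 1 ⊗ₜ[R] x := by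
  have h : (toT R E E').comp (frR R E E') =
      (Algebra.TensorProduct.includeRight : SA R E' →ₐ[R] SA R E ⊗[R] SA R E') := by
    apply sa_ext (R := R) E'
    intro y
    have h1 : frR R E E' (sv R E' y) = sv R (both E E') (vr y) := saLift_sv _ _ _ _
    change toT R E E' (frR R E E' (sv R E' y)) = 1 ⊗ₜ[R] sv R E' y
    rw [h1, toT_sv, tv_vr]
  exact DFunLike.congr_fun h x

lemma toT_frT' (z : SA R E ⊗[R] SA R E') : toT R E E' (frT R E E' z) = z := by
  induction z using TensorProduct.induction_on with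
  | zero => rw [map_zero, map_zero]
  | tmul x y =>
    rw [frT, Algebra.TensorProduct.productMap_apply_tmul, map_mul, toT_frL, toT_frR,
      Algebra.TensorProduct.tmul_mul_tmul, one_mul, mul_one]
  | add x y hx hy => rw [map_add, map_add, hx, hy]

lemma toT_frT : (toT R E E').comp (frT R E E') = AlgHom.id R _ := AlgHom.ext (toT_frT' E E')

/-- The algebra of the two systems together is the tensor product. -/
noncomputable def bothE (R : Type) [CommRing R] {β γ κ β' γ' κ' : Type} (E : κ → Finset (β × γ))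
    (E' : κ' → Finset (β' × γ')) : SA R E ⊗[R] SA R E' ≃ₐ[R] SA R (both E E') :=
  AlgEquiv.ofAlgHom (frT R E E') (toT R E E') (frT_toT E E') (toT_frT E E')

end

/-- The product of two systems is a system, with at most three terms in every equation if this holds for
the factors. -/
theorem exists_both (R : Type) [CommRing R] {a b c a' b' c' : ℕ} (E : Fin c → Finset (Fin a × Fin b))
    (E' : Fin c' → Finset (Fin a' × Fin b')) (hE : ∀ l, (E l).card ≤ 3) (hE' : ∀ l, (E' l).card ≤ 3) :
    ∃ F : Fin (c + c') → Finset (Fin (a + a') × Fin (b + b')), (∀ l, (F l).card ≤ 3) ∧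
      Nonempty ((SA R E ⊗[R] SA R E') ≃ₐ[R] SA R F) := by
  classical
  refine ⟨_, ?_, ⟨(bothE R E E').trans (fewRename (R := R) finSumFinEquiv.symm finSumFinEquiv.symm
    finSumFinEquiv.symm (both E E')).symm⟩⟩
  intro l
  rw [Finset.card_map]
  generalize finSumFinEquiv.symm l = k
  rcases k with k | k
  · rw [both, Sum.elim_inl, Finset.card_map]
    exact hE k
  · rw [both, Sum.elim_inr, Finset.card_map]
    exact hE' k

end Pool.Agent.V5helper77.OP
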