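import Pool.Agent.Q282.UZ.Sys
import Pool.Agent.Q193.LT.Prime

/-!
# Presentations by sums of at most three monomials over the rational numbers
-/

set_option autoImplicit false

open MvPolynomial Pool.Agent.Y116.UV Pool.Agent.Q282.UZ Pool.Agent.Q193.LT

namespace Pool.Agent.V5helper77.OP

variable {R : Type} [CommRing R]

lemma reach_map (n : ℕ) (f : MvPolynomial (Fin n) ℤ) :
    map (Int.castRingHom R) f ∈ Reach (base R n) := by
  have hm := base_neg (R := R) n
  have h1 : (1 : MvPolynomial (Fin n) R) ∈ Reach (base R n) := by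
    have := reach_mul hm (reach_mark hm) (reach_mark hm)
    rwa [neg_mul_neg, one_mul] at this
  have h0 : (0 : MvPolynomial (Fin n) R) ∈ Reach (base R n) := by
    have := reach_add hm h1 (reach_mark hm)
    rwa [add_neg_cancel] at this
  have hz : ∀ k : ℤ, ((k : ℤ) : MvPolynomial (Fin n) R) ∈ Reach (base R n) := by
    intro k
    induction k using Int.induction_on with
    | zero => rwa [Int.cast_zero]
    | succ k hk =>
      rw [Int.cast_add, Int.cast_one]
      exact reach_add hm hk h1
    | pred k hk =>
      rw [Int.cast_sub, Int.cast_one, sub_eq_add_neg]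
      exact reach_add hm hk (reach_mark hm)
  induction f using MvPolynomial.induction_on with
  | C r =>
    have h2 : map (Int.castRingHom R) (C r : MvPolynomial (Fin n) ℤ) = ((r : ℤ) : MvPolynomial (Fin n) R) := by
      rw [map_C, eq_intCast]
      exact (map_intCast (C : R →+* MvPolynomial (Fin n) R) r)
    rw [h2]
    exact hz r
  | add p q hp hq =>
    rw [map_add]
    exact reach_add hm hp hq
  | mul_X p i hp =>
    rw [map_mul, map_X]
    refine reach_mul hm hp (reach_mark ⟨some i, ?_⟩)
    change aeval _ (X (some i)) = _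
    rw [aeval_X]
    rfl

lemma reach_int (n : ℕ) (f : MvPolynomial (Fin n) R) (hf : ∀ m, ∃ w : ℤ, (w : R) = coeff m f) :
    f ∈ Reach (base R n) := by
  classical
  choose w hw using hf
  have h : f = map (Int.castRingHom R) (∑ m ∈ f.support, monomial m (w m)) := by
    rw [map_sum]
    conv_lhs => rw [f.as_sum]
    apply Finset.sum_congr rfl
    intro m _
    rw [map_monomial, eq_intCast, hw]
  rw [h]
  exact reach_map n _

lemma reach_set_int (n : ℕ) (F : Finset (MvPolynomial (Fin n) R))
    (hF : ∀ f ∈ F, ∀ m, ∃ w : ℤ, (w : R) = coeff m f) :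
    ∃ P : SP R (MvPolynomial (Fin n) R), (base R n).marks ⊆ P.marks ∧ ∀ f ∈ F, f ∈ P.marks := by
  classical
  induction F using Finset.induction_on with
  | empty => exact ⟨base R n, le_rfl, by simp⟩
  | insert f F _ ih =>
    obtain ⟨P, h1, h2⟩ := ih fun f hf => hF f (Finset.mem_insert_of_mem hf)
    obtain ⟨P', h3, h4⟩ := reach_int n f (hF f (Finset.mem_insert_self _ _)) P h1
    refine ⟨P', h1.trans h3, fun g hg => ?_⟩
    rcases Finset.mem_insert.mp hg with rfl | hg
    · exact h4
    · exact h3 (h2 g hg)

/-- presentations with integral coefficients -/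
lemma present_int [IsNoetherianRing R] (hR : Frac R) (A : Type) [CommRing A] [Algebra R A]
    [Algebra.FiniteType R A] : ∃ (n : ℕ) (π : MvPolynomial (Fin n) R →ₐ[R] A)
      (F : Finset (MvPolynomial (Fin n) R)), Function.Surjective π ∧
      Ideal.span (F : Set (MvPolynomial (Fin n) R)) = RingHom.ker π ∧
      ∀ f ∈ F, ∀ m, ∃ w : ℤ, (w : R) = coeff m f := by
  classical
  obtain ⟨n, φ, G0, hs, hK0, -⟩ := presents_univ (R := R) A
  choose d w hd hw using hR
  let δ : MvPolynomial (Fin n) R → ℤ := fun g => ∏ m ∈ g.support, d (coeff m g)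
  have hδ : ∀ g, IsUnit ((δ g : ℤ) : R) := by
    intro g
    have h1 : ((δ g : ℤ) : R) = ∏ m ∈ g.support, ((d (coeff m g) : ℤ) : R) := Int.cast_prod _ _
    rw [h1]
    exact Submonoid.prod_mem (IsUnit.submonoid R) fun m _ => hd _
  refine ⟨n, φ, G0.image fun g => C ((δ g : ℤ) : R) * g, hs, ?_, ?_⟩
  · rw [hK0]
    apply le_antisymm
    · rw [Ideal.span_le]
      intro g hg
      obtain ⟨g', hg', rfl⟩ := Finset.mem_image.mp (Finset.mem_coe.mp hg)
      exact Ideal.mul_mem_left _ _ (Ideal.subset_span hg')
    · rw [Ideal.span_le]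
      intro g hg
      have h1 : C ((δ g : ℤ) : R) * g ∈ Ideal.span
          ((G0.image fun g => C ((δ g : ℤ) : R) * g : Finset _) : Set (MvPolynomial (Fin n) R)) :=
        Ideal.subset_span (Finset.mem_coe.mpr (Finset.mem_image.mpr ⟨g, hg, rfl⟩))
      exact (Ideal.unit_mul_mem_iff_mem _ ((hδ g).map C)).mp h1
  · intro g hg m
    obtain ⟨g', hg', rfl⟩ := Finset.mem_image.mp hg
    rw [coeff_C_mul]
    by_cases hm : m ∈ g'.support
    · refine ⟨w (coeff m g') * ∏ m' ∈ g'.support.erase m, d (coeff m' g'), ?_⟩
      have h1 : δ g' = d (coeff m g') * ∏ m' ∈ g'.support.erase m, d (coeff m' g') :=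
        (Finset.mul_prod_erase _ _ hm).symm
      rw [h1, Int.cast_mul, Int.cast_mul, hw]
      ring
    · refine ⟨0, ?_⟩
      rw [notMem_support_iff.mp hm, mul_zero, Int.cast_zero]

/-- Over a noetherian ring in which all elements are quotients of integers, every algebra of finite type
has a presentation by sums of at most three monomials. -/
theorem short_frac [IsNoetherianRing R] (hR : Frac R) : ShortPresents R := by
  classical
  intro A _ _ _
  obtain ⟨n, π, F, hπ, hF, hZ⟩ := present_int hR A
  obtain ⟨P, hP0, hP⟩ := reach_set_int n F hZ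
  have hne : Nonempty P.V := by
    obtain ⟨v, _⟩ := hP0 (base_neg n)
    exact ⟨v⟩
  choose! v hv using hP
  let Q : SP R A :=
    { V := P.V
      fin := P.fin
      φ := π.comp P.φ
      G := P.G ∪ (fun f => X (v f)) '' (F : Set (MvPolynomial (Fin n) R))
      finG := P.finG.union (F.finite_toSet.image _)
      surj := fun a => by
        obtain ⟨b, rfl⟩ := hπ a
        obtain ⟨c, rfl⟩ := P.surj b
        exact ⟨c, rfl⟩
      ker := by
        have h1 : RingHom.ker (π.comp P.φ) = Ideal.comap (P.φ : MvPolynomial P.V R →+* _)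
            (RingHom.ker π) := rfl
        have h2 : RingHom.ker π = Ideal.map (P.φ : MvPolynomial P.V R →+* _)
            (Ideal.span ((fun f => X (v f)) '' (F : Set (MvPolynomial (Fin n) R)))) := by
          rw [Ideal.map_span, ← hF, Set.image_image]
          congr 1
          ext x
          constructor
          · intro hx
            exact ⟨x, hx, hv x hx⟩
          · rintro ⟨y, hy, rfl⟩
            have : (P.φ : MvPolynomial P.V R →+* _) (X (v y)) = y := hv y hy
            change (P.φ : MvPolynomial P.V R →+* MvPolynomial (Fin n) R) (X (v y)) ∈ _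
            rw [this]
            exact hy
        have h3 : RingHom.ker (P.φ : MvPolynomial P.V R →+* MvPolynomial (Fin n) R) =
            Ideal.span P.G := P.ker
        rw [h1, h2, Ideal.comap_map_of_surjective'
          (P.φ : MvPolynomial P.V R →+* MvPolynomial (Fin n) R) P.surj, Ideal.span_union, sup_comm,
          h3]
      short := by
        rintro g (hg | ⟨f, _, rfl⟩)
        · exact P.short g hg
        · refine ⟨{Finsupp.single (v f) 1}, by simp, ?_⟩
          rw [ms, Finset.sum_singleton]
          rfl }
  exact Q.toFin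

theorem short_rat : ShortPresents ℚ := short_frac frac_rat

end Pool.Agent.V5helper77.OP
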