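import Pool.Agent.V5helper77.GW.Wt
import Pool.Agent.V5helper77.OP.Poly
import Pool.Agent.V5helper77.OP.Short
import Pool.Agent.V5helper77.OP.Prod

/-!
# Ordinary primes for intersection cohomology: definitions
-/

set_option autoImplicit false

open CategoryTheory CategoryTheory.Limits AlgebraicGeometry Pool.Agent.Y116.UV Pool.Agent.Z125.UN
  Pool.Agent.V5helper77.GW NumberField IsDedekindDomain Filter
open scoped TensorProduct

universe v u

namespace Pool.Agent.V5helper77.OP

/-! ### Motives over `ℚ` -/

section motives

variable {C : Type u} [Category.{v} C]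

/-- `M` is a direct summand of `N`. -/
def IsSummand (M N : C) : Prop := ∃ (i : M ⟶ N) (r : N ⟶ M), i ≫ r = 𝟙 M

/-- Hodge numbers and Frobenius slopes of motives over `ℚ`. -/
structure Slopes (C : Type u) where
  /-- the Hodge slopes: `i` with the multiplicity `h^{i, w - i}` -/
  hodge : C → Multiset ℚ
  /-- the slopes of the (crystalline) Frobenius at the prime number `p` -/
  newton : Nat.Primes → C → Multiset ℚ

/-- The prime number `p` is ordinary for the motive `M`: the Newton polygon is the Hodge polygon. -/
def Slopes.Ord (D : Slopes C) (M : C) (p : Nat.Primes) : Prop := D.newton p M = D.hodge M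

variable [Abelian C]

/-- The properties of the Hodge numbers and the slopes for the category `C` of (André) motives over `ℚ`;
`V w n X` is `Gr^W_w H^n_c(X)`, `tw r M` is the Tate twist `M(-r)`, `ten M N` the tensor product.

* `iso`, `sum`, `twist`, `tensor`: isomorphisms, direct sums, Tate twists, tensor products (for almost all
  primes `p`);
* `above`: for almost all `p` the Newton polygon of `M` lies on or above the Hodge polygon (Mazur;
  `M` is crystalline at almost all `p` and the filtered module is weakly admissible);
* `kunneth`: `H^n_c(X) ⊗ H^m_c(Y)` is a direct summand of `H^(n+m)_c(X × Y)`, for affine `X`, `Y`;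
* `product`: for smooth projective varieties `X`, `Y` the motive `H^n(X) ⊗ H^m(Y)` is, up to a twist, a direct
  summand of `H^i(Z)`, for a smooth projective variety `Z` (Künneth; if `X × Y` is not irreducible
  let `Z` be a blow-up of a projective space along `X × Y`). -/
structure IsSlopes (V : ℤ → ℤ → Sch ℚ → C) (tw : ℤ → C → C) (ten : C → C → C) (D : Slopes C) :
    Prop where
  iso : ∀ {M N : C}, Nonempty (M ≅ N) →
    D.hodge M = D.hodge N ∧ ∀ᶠ p in cofinite, D.newton p M = D.newton p N
  sum : ∀ M N : C, D.hodge (M ⊞ N) = D.hodge M + D.hodge N ∧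
    ∀ᶠ p in cofinite, D.newton p (M ⊞ N) = D.newton p M + D.newton p N
  twist : ∀ (r : ℤ) (M : C), D.hodge (tw r M) = (D.hodge M).map (fun x => x + (r : ℚ)) ∧
    ∀ᶠ p in cofinite, D.newton p (tw r M) = (D.newton p M).map (fun x => x + (r : ℚ))
  tensor : ∀ M N : C, D.hodge (ten M N) = pairSum (D.hodge M) (D.hodge N) ∧
    ∀ᶠ p in cofinite, D.newton p (ten M N) = pairSum (D.newton p M) (D.newton p N)
  above : ∀ M : C, ∀ᶠ p in cofinite, Above (D.newton p M) (D.hodge M)
  point : D.hodge (V 0 0 (aff ℚ ℚ)) = {0}
  point_zero : ∀ w n : ℤ, (w ≠ 0 ∨ n ≠ 0) → IsZero (V w n (aff ℚ ℚ))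
  kunneth : ∀ (A B : Type) [CommRing A] [Algebra ℚ A] [Algebra.FiniteType ℚ A] [CommRing B]
    [Algebra ℚ B] [Algebra.FiniteType ℚ B] (w n w' n' : ℤ),
    IsSummand (ten (V w n (aff ℚ A)) (V w' n' (aff ℚ B))) (V (w + w') (n + n') (aff ℚ (A ⊗[ℚ] B)))
  product : ∀ X Y : Sch ℚ, IsSmProj X → IsSmProj Y → ∀ n m : ℤ, ∃ (Z : Sch ℚ) (r i : ℤ),
    IsSmProj Z ∧ IsSummand (tw r (ten (V n n X) (V m m Y))) (V i i Z)

end motives

/-! ### Intersection cohomology -/

/-- The numerical data of the intersection cohomology `IH^n(X)` of projective varieties `X` over number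
fields `F`: the Hodge-Tate slopes, and the slopes of the Frobenius at the places `v` of `F`
(normalized by `v(N v) = 1`). -/
structure IHSlopes where
  hodge : ∀ (F : Type) [Field F] [NumberField F], Sch F → ℤ → Multiset ℚ
  newton : ∀ (F : Type) [Field F] [NumberField F], Sch F → ℤ → HeightOneSpectrum (𝓞 F) → Multiset ℚ

/-- The place `v` is ordinary for `IH^n(X)`: Newton polygon and Hodge-Tate polygon coincide. -/
def IHSlopes.Ord (I : IHSlopes) (F : Type) [Field F] [NumberField F] (X : Sch F) (n : ℤ)
    (v : HeightOneSpectrum (𝓞 F)) : Prop :=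
  I.newton F X n v = I.hodge F X n

/-- `X` is a projective variety over `F`: it is integral and a closed subscheme of a projective space. -/
structure IsProjVar {F : Type} [Field F] (X : Sch F) : Prop where
  integral : IsIntegral X.left
  projective : ∃ (N : ℕ) (i : X ⟶ PP F N), IsClosedImmersion i.left

/-- **Q1**: for all number fields `F`, all projective varieties `X` over `F` and all `n` there are
infinitely many places of `F` which are ordinary for `IH^n(X)`. -/
def IHSlopes.OrdinaryPrimes (I : IHSlopes) : Prop :=
  ∀ (F : Type) [Field F] [NumberField F] (X : Sch F), IsProjVar X → ∀ n : ℤ,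
    {v : HeightOneSpectrum (𝓞 F) | I.Ord F X n v}.Infinite

section places

variable (F : Type) [Field F] [NumberField F]

/-- The places of `F` above the prime number `p`. -/
def lying (p : Nat.Primes) : Set (HeightOneSpectrum (𝓞 F)) := {v | ((p : ℕ) : 𝓞 F) ∈ v.asIdeal}

lemma finite_lying (p : Nat.Primes) : (lying F p).Finite := by
  have h : (Ideal.span {((p : ℕ) : 𝓞 F)}) ≠ 0 := by
    rw [Ideal.zero_eq_bot, Ne, Ideal.span_singleton_eq_bot]
    exact_mod_cast p.2.ne_zero
  refine (Ideal.finite_factors h).subset ?_
  intro v hv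
  change v.asIdeal ∣ _
  rw [Ideal.dvd_span_singleton]
  exact hv

/-- The places of `F` above `p`, as a finite set. -/
noncomputable def places (p : Nat.Primes) : Finset (HeightOneSpectrum (𝓞 F)) := (finite_lying F p).toFinset

variable {F}

/-- The residue degree: `p ^ deg p v` is the norm of `v`, for `v` above `p`. -/
noncomputable def deg (p : Nat.Primes) (v : HeightOneSpectrum (𝓞 F)) : ℕ :=
  padicValNat p (Ideal.absNorm v.asIdeal)

end places

/-- The motive `M` over `ℚ` is the restriction of scalars of `IH^n(X)`, `X` over `F`: every Hodge slope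
occurs `[F : ℚ]` times as often, and the slopes at `p` (for almost all `p`) are those at the places `v`
above `p`, with `deg v` times the multiplicity. -/
def IsRes {C : Type u} [Category.{v} C] (D : Slopes C) (I : IHSlopes) (F : Type) [Field F]
    [NumberField F] (X : Sch F) (n : ℤ) (M : C) : Prop :=
  D.hodge M = Module.finrank ℚ F • I.hodge F X n ∧
  ∀ᶠ p in cofinite, D.newton p M = ∑ v ∈ places F p, deg p v • I.newton F X n v

/-- The properties of intersection cohomology which are used.

* `above`: for almost all places the Newton polygon of `IH^n(X)` lies on or above the Hodge polygon;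
* `decomposition` (decomposition theorem): the restriction of scalars `M` of the motive `IH^n(X)` is a
  direct summand of `H^n(Y)`, for a resolution of singularities `Y` of `X`, considered as a smooth
  projective variety over `ℚ`;
* `smooth`: if `X` is smooth, then `IH^n(X) = H^n(X)`. -/
structure IsIH {C : Type u} [Category.{v} C] [Abelian C] (V : ℤ → ℤ → Sch ℚ → C) (D : Slopes C)
    (I : IHSlopes) : Prop where
  above : ∀ (F : Type) [Field F] [NumberField F] (X : Sch F), IsProjVar X → ∀ n : ℤ,
    ∀ᶠ v in cofinite, Above (I.newton F X n v) (I.hodge F X n)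
  decomposition : ∀ (F : Type) [Field F] [NumberField F] (X : Sch F), IsProjVar X → ∀ n : ℤ,
    ∃ (Y : Sch ℚ) (M : C), IsSmProj Y ∧ IsSummand M (V n n Y) ∧ IsRes D I F X n M
  smooth : ∀ X : Sch ℚ, IsSmProj X → ∀ n : ℤ, IsRes D I ℚ X n (V n n X)

end Pool.Agent.V5helper77.OP
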