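import Pool.Agent.V5helper77.OP.Defs

/-!
# Ordinary primes for intersection cohomology and three-term bilinear systems
-/

set_option autoImplicit false

open CategoryTheory CategoryTheory.Limits AlgebraicGeometry Pool.Agent.Y116.UV Pool.Agent.Z125.UN
  Pool.Agent.V5helper77.GW NumberField IsDedekindDomain Filter Pool.Agent.Q282.UZ Pool.Agent.Q282.UK
  Pool.Agent.Q193.LT
open scoped TensorProduct

universe v u

namespace Pool.Agent.V5helper77.OP

section motives

variable {C : Type u} [Category.{v} C] [Abelian C] {V : ℤ → ℤ → Sch ℚ → C} {tw : ℤ → C → C}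
  {ten : C → C → C} {D : Slopes C}

lemma exists_compl {M N : C} (h : IsSummand M N) : ∃ K : C, Nonempty (N ≅ M ⊞ K) := by
  obtain ⟨i, r, hir⟩ := h
  have : Mono i := by
    constructor
    intro Z f g hfg
    have := congrArg (fun x => x ≫ r) hfg
    simpa [Category.assoc, hir] using this
  let S : ShortComplex C := ShortComplex.mk i (cokernel.π i) (cokernel.condition i)
  have hS : S.Exact := ShortComplex.exact_of_g_is_cokernel _ (cokernelIsCokernel i)
  have : Epi S.g := inferInstanceAs (Epi (cokernel.π i))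
  let sp := ShortComplex.Splitting.ofExactOfRetraction S hS r hir this
  exact ⟨cokernel i, ⟨sp.isoBinaryBiproduct⟩⟩

section

variable (hD : IsSlopes V tw ten D)

include hD

lemma summand_data {M N : C} (h : IsSummand M N) : ∃ K : C, D.hodge N = D.hodge M + D.hodge K ∧
    ∀ᶠ p in cofinite, D.newton p N = D.newton p M + D.newton p K := by
  obtain ⟨K, hK⟩ := exists_compl h
  obtain ⟨h1, h2⟩ := hD.iso hK
  obtain ⟨h3, h4⟩ := hD.sum M K
  refine ⟨K, h1.trans h3, ?_⟩
  filter_upwards [h2, h4] with p e1 e2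
  exact e1.trans e2

lemma ord_summand {M N : C} (h : IsSummand M N) : ∀ᶠ p in cofinite, D.Ord N p → D.Ord M p := by
  obtain ⟨K, h1, h2⟩ := summand_data hD h
  filter_upwards [h2, hD.above M, hD.above K] with p e1 e2 e3 ho
  unfold Slopes.Ord at ho ⊢
  rw [e1, h1] at ho
  exact (eq_of_add e2 e3 ho).1

lemma hodge_summand {M N : C} (h : IsSummand M N) (hM : D.hodge M ≠ 0) : D.hodge N ≠ 0 := by
  obtain ⟨K, h1, -⟩ := summand_data hD h
  rw [h1]
  intro h2
  apply hM
  exact (add_eq_zero.mp h2).1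

lemma ord_twist (r : ℤ) (M : C) : ∀ᶠ p in cofinite, (D.Ord (tw r M) p ↔ D.Ord M p) := by
  obtain ⟨h1, h2⟩ := hD.twist r M
  filter_upwards [h2] with p e
  unfold Slopes.Ord
  rw [e, h1]
  exact (Multiset.map_injective (fun x y h => by simpa using h)).eq_iff

lemma ord_zero {M : C} (hM : D.hodge M = 0) : ∀ᶠ p in cofinite, D.Ord M p := by
  filter_upwards [hD.above M] with p hp
  unfold Slopes.Ord
  rw [hM] at hp ⊢
  exact hp.zero

lemma ord_tensor {M N : C} (hM : D.hodge M ≠ 0) (hN : D.hodge N ≠ 0) :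
    ∀ᶠ p in cofinite, D.Ord (ten M N) p → D.Ord M p ∧ D.Ord N p := by
  obtain ⟨h1, h2⟩ := hD.tensor M N
  filter_upwards [h2, hD.above M, hD.above N] with p e1 e2 e3 ho
  unfold Slopes.Ord at ho ⊢
  rw [e1, h1] at ho
  exact eq_of_pairSum e2 e3 hM hN ho

lemma hodge_tensor {M N : C} (hM : D.hodge M ≠ 0) (hN : D.hodge N ≠ 0) : D.hodge (ten M N) ≠ 0 := by
  rw [(hD.tensor M N).1]
  exact pairSum_ne_zero hM hN

lemma hodge_twist (r : ℤ) {M : C} (hM : D.hodge M ≠ 0) : D.hodge (tw r M) ≠ 0 := by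
  rw [(hD.twist r M).1]
  intro h
  exact hM (Multiset.map_eq_zero.mp h)

/-- The class of the motives which are ordinary at the primes of a filter. -/
lemma twistClass {𝓕 : Filter Nat.Primes} (h𝓕 : 𝓕 ≤ cofinite) :
    IsTwistClass (fun _ M => ∀ᶠ p in 𝓕, D.Ord M p) tw where
  zero := fun _ M hM => by
    have h1 : Nonempty (M ≅ M ⊞ M) := by
      refine ⟨hM.iso ?_⟩
      rw [IsZero.iff_id_eq_zero]
      ext <;> exact hM.eq_of_src _ _
    have h2 := (hD.iso h1).1
    rw [(hD.sum M M).1] at h2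
    have h3 : D.hodge M = 0 := by
      have h4 := congrArg Multiset.card h2
      rw [Multiset.card_add] at h4
      exact Multiset.card_eq_zero.mp (by omega)
    exact h𝓕 (ord_zero hD h3)
  retract := fun _ {M N} i r hir h => by
    have h1 := h𝓕 (ord_summand hD ⟨i, r, hir⟩)
    filter_upwards [h, h1] with p e1 e2
    exact e2 e1
  sum := fun _ {M N} hM hN => by
    obtain ⟨h1, h2⟩ := hD.sum M N
    filter_upwards [hM, hN, h𝓕 h2] with p e1 e2 e3
    unfold Slopes.Ord at e1 e2 ⊢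
    rw [e3, h1, e1, e2]
  twist := fun _ r M => by
    have h1 := h𝓕 (ord_twist hD r M)
    constructor
    · intro h
      filter_upwards [h, h1] with p e1 e2
      exact e2.mp e1
    · intro h
      filter_upwards [h, h1] with p e1 e2
      exact e2.mpr e1

lemma point_pieces {𝓕 : Filter Nat.Primes} (h𝓕 : 𝓕 ≤ cofinite) :
    AllPieces V (fun _ M => ∀ᶠ p in 𝓕, D.Ord M p) (aff ℚ ℚ) := by
  intro w n
  by_cases h : w ≠ 0 ∨ n ≠ 0
  · exact (twistClass hD h𝓕).zero w _ (hD.point_zero w n h)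
  · push Not at h
    obtain ⟨rfl, rfl⟩ := h
    apply h𝓕
    filter_upwards [hD.above (V 0 0 (aff ℚ ℚ))] with p hp
    unfold Slopes.Ord
    rw [hD.point] at hp ⊢
    obtain ⟨x, hx⟩ := Multiset.card_eq_one.mp (hp.1.trans (Multiset.card_singleton _))
    rw [hx] at hp ⊢
    have h2 := hp.2.1
    rw [Multiset.sum_singleton, Multiset.sum_singleton] at h2
    rw [h2]

end

/-! ### Simultaneous ordinary primes -/

section fip

variable {ι : Type*} (M : ι → C) (hD : IsSlopes V tw ten D)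
  (hten : ∀ i j, ∃ k, (D.hodge (M i) ≠ 0 → D.hodge (M j) ≠ 0 → D.hodge (M k) ≠ 0) ∧
    ∀ᶠ p in cofinite, D.Ord (M k) p → D.Ord (ten (M i) (M j)) p)
  (hinf : ∀ i, {p | D.Ord (M i) p}.Infinite)

include hD

instance : (cofinite : Filter Nat.Primes).NeBot := by
  have : Infinite Nat.Primes := Nat.infinite_setOfPred_prime.to_subtype
  infer_instance

include hten in
lemma dominate (i₀ : ι) (h₀ : D.hodge (M i₀) ≠ 0) (L : List ι) :
    ∃ k, D.hodge (M k) ≠ 0 ∧ ∀ᶠ p in cofinite, D.Ord (M k) p → ∀ i ∈ L, D.Ord (M i) p := by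
  induction L with
  | nil => exact ⟨i₀, h₀, Eventually.of_forall fun p _ i hi => absurd hi (by simp)⟩
  | cons a L ih =>
    obtain ⟨k, hk, h1⟩ := ih
    by_cases ha : D.hodge (M a) = 0
    · refine ⟨k, hk, ?_⟩
      filter_upwards [h1, ord_zero hD ha] with p e1 e2 ho i hi
      rcases List.mem_cons.mp hi with rfl | hi
      · exact e2
      · exact e1 ho i hi
    · obtain ⟨m, hm, h2⟩ := hten a k
      refine ⟨m, hm ha hk, ?_⟩
      filter_upwards [h1, h2, ord_tensor hD ha hk] with p e1 e2 e3 ho i hi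
      obtain ⟨e4, e5⟩ := e3 (e2 ho)
      rcases List.mem_cons.mp hi with rfl | hi
      · exact e4
      · exact e1 e5 i hi

include hten hinf in
lemma simultaneous (L : List ι) : {p | ∀ i ∈ L, D.Ord (M i) p}.Infinite := by
  by_cases h : ∃ i, D.hodge (M i) ≠ 0
  · obtain ⟨i₀, h₀⟩ := h
    obtain ⟨k, -, h1⟩ := dominate M hD hten i₀ h₀ L
    intro hf
    apply hinf k
    refine (hf.union h1).subset ?_
    intro p hp
    by_cases hc : ∀ i ∈ L, D.Ord (M i) p
    · exact Or.inl hc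
    · exact Or.inr fun h => hc (h hp)
  · push Not at h
    rw [← frequently_cofinite_iff_infinite]
    apply Eventually.frequently
    induction L with
    | nil => exact Eventually.of_forall fun p i hi => absurd hi (by simp)
    | cons a L ih =>
      filter_upwards [ih, ord_zero hD (h a)] with p e1 e2 i hi
      rcases List.mem_cons.mp hi with rfl | hi
      · exact e2
      · exact e1 i hi

include hten hinf in
/-- There is a filter of sets of primes, finer than the filter of the cofinite sets, for which all `M i`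
are ordinary. -/
lemma exists_filter : ∃ 𝓕 : Filter Nat.Primes, 𝓕.NeBot ∧ 𝓕 ≤ cofinite ∧
    ∀ i, ∀ᶠ p in 𝓕, D.Ord (M i) p := by
  classical
  let s : Set (Set Nat.Primes) := {A | A ∈ cofinite} ∪ Set.range fun i => {p | D.Ord (M i) p}
  have key : ∀ t : Set (Set Nat.Primes), t.Finite → t ⊆ s → ∃ (B : Set Nat.Primes) (L : List ι),
      B ∈ cofinite ∧ ∀ p ∈ B, (∀ i ∈ L, D.Ord (M i) p) → p ∈ ⋂₀ t := by
    intro t ht
    induction t, ht using Set.Finite.induction_on with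
    | empty => exact fun _ => ⟨Set.univ, [], univ_mem, fun p _ _ => by simp⟩
    | @insert A t _ _ ih =>
      intro hs
      obtain ⟨B, L, hB, hL⟩ := ih ((Set.subset_insert _ _).trans hs)
      rcases hs (Set.mem_insert _ _) with hA | ⟨i, rfl⟩
      · refine ⟨A ∩ B, L, inter_mem hA hB, fun p hp hpL => ?_⟩
        rw [Set.sInter_insert]
        exact ⟨hp.1, hL p hp.2 hpL⟩
      · refine ⟨B, i :: L, hB, fun p hp hpL => ?_⟩
        rw [Set.sInter_insert]
        exact ⟨hpL i (by simp), hL p hp fun j hj => hpL j (by simp [hj])⟩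
  refine ⟨generate s, ?_, ?_, ?_⟩
  · rw [generate_neBot_iff]
    intro t hts ht
    obtain ⟨B, L, hB, hL⟩ := key t ht hts
    have h1 := simultaneous M hD hten hinf L
    obtain ⟨p, hp⟩ := (h1.sdiff hB).nonempty
    rw [Set.sdiff_compl] at hp
    exact ⟨p, hL p hp.2 hp.1⟩
  · intro A hA
    exact GenerateSets.basic (Or.inl hA)
  · intro i
    exact GenerateSets.basic (Or.inr ⟨i, rfl⟩)

include hten hinf in
/-- For countably many motives there is one sequence of primes. -/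
lemma exists_seq [Countable ι] : ∃ x : ℕ → Nat.Primes, Tendsto x atTop cofinite ∧
    ∀ i, ∀ᶠ k in atTop, D.Ord (M i) (x k) := by
  obtain ⟨𝓕, hne, hle, hM⟩ := exists_filter M hD hten hinf
  let 𝓖 : Filter Nat.Primes := (⨅ p : Nat.Primes, 𝓟 ({p}ᶜ)) ⊓ ⨅ i, 𝓟 {p | D.Ord (M i) p}
  have h1 : 𝓕 ≤ 𝓖 := by
    refine le_inf (le_iInf fun p => ?_) (le_iInf fun i => ?_)
    · rw [le_principal_iff]
      exact hle (Set.finite_singleton p).compl_mem_cofinite
    · rw [le_principal_iff]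
      exact hM i
  have : 𝓖.NeBot := hne.mono h1
  obtain ⟨x, hx⟩ := exists_seq_tendsto 𝓖
  refine ⟨x, ?_, ?_⟩
  · intro A hA
    have h2 : ∀ p ∈ Aᶜ, ∀ᶠ k in atTop, x k ≠ p := by
      intro p _
      have h3 : ({p}ᶜ : Set Nat.Primes) ∈ 𝓖 :=
        mem_inf_of_left (mem_iInf_of_mem p (mem_principal_self _))
      exact hx h3
    have h4 := (Set.Finite.eventually_all hA).mpr h2
    rw [Filter.mem_map]
    filter_upwards [h4] with k hk
    by_contra hc
    exact hk (x k) hc rfl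
  · intro i
    have h3 : {p | D.Ord (M i) p} ∈ 𝓖 :=
      mem_inf_of_right (mem_iInf_of_mem i (mem_principal_self _))
    exact hx h3

end fip

/-! ### Places -/

section places

variable (F : Type) [Field F] [NumberField F]

lemma exists_prime (v : HeightOneSpectrum (𝓞 F)) : ∃ p : Nat.Primes, v ∈ lying F p := by
  have h0 : Ideal.absNorm v.asIdeal ≠ 0 := by
    rw [Ne, Ideal.absNorm_eq_zero_iff]
    exact v.ne_bot
  have h1 : ((Ideal.absNorm v.asIdeal : ℕ) : 𝓞 F) ∈ v.asIdeal := Ideal.absNorm_mem _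
  have key : ∀ L : List ℕ, (∀ q ∈ L, q.Prime) → ((L.prod : ℕ) : 𝓞 F) ∈ v.asIdeal →
      ∃ q ∈ L, ((q : ℕ) : 𝓞 F) ∈ v.asIdeal := by
    intro L
    induction L with
    | nil =>
      intro _ h
      rw [List.prod_nil, Nat.cast_one] at h
      exact absurd ((Ideal.eq_top_iff_one _).mpr h) v.isPrime.ne_top
    | cons a L ih =>
      intro hL h
      rw [List.prod_cons, Nat.cast_mul] at h
      rcases v.isPrime.mem_or_mem h with h | h
      · exact ⟨a, by simp, h⟩
      · obtain ⟨q, hq, h2⟩ := ih (fun q hq => hL q (by simp [hq])) h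
        exact ⟨q, by simp [hq], h2⟩
  rw [← Nat.prod_primeFactorsList h0] at h1
  obtain ⟨q, hq, h2⟩ := key _ (fun q hq => Nat.prime_of_mem_primeFactorsList hq) h1
  exact ⟨⟨q, Nat.prime_of_mem_primeFactorsList hq⟩, h2⟩

variable {F}

omit [NumberField F] in
lemma prime_unique {v : HeightOneSpectrum (𝓞 F)} {p q : Nat.Primes} (hp : v ∈ lying F p)
    (hq : v ∈ lying F q) : p = q := by
  by_contra hne
  have h1 : Nat.Coprime (p : ℕ) (q : ℕ) :=
    (Nat.coprime_primes p.2 q.2).mpr fun h => hne (Subtype.ext h)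
  have h2 : IsCoprime ((p : ℕ) : ℤ) ((q : ℕ) : ℤ) := Nat.isCoprime_iff_coprime.mpr h1
  obtain ⟨a, b, hab⟩ := h2
  have h3 : (1 : 𝓞 F) ∈ v.asIdeal := by
    have h4 := congrArg (fun x : ℤ => (x : 𝓞 F)) hab
    simp only [Int.cast_add, Int.cast_mul, Int.cast_natCast, Int.cast_one] at h4
    rw [← h4]
    exact v.asIdeal.add_mem (v.asIdeal.mul_mem_left _ hp) (v.asIdeal.mul_mem_left _ hq)
  exact v.isPrime.ne_top ((Ideal.eq_top_iff_one _).mpr h3)

variable (F) in
lemma exists_place (p : Nat.Primes) : ∃ v : HeightOneSpectrum (𝓞 F), v ∈ lying F p := by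
  have h1 : (Ideal.span {((p : ℕ) : 𝓞 F)}) ≠ ⊤ := by
    intro h
    rw [Ideal.span_singleton_eq_top] at h
    have h2 : IsUnit (((p : ℕ) : ℤ)) := by
      have h3 := (NumberField.isUnit_iff_norm (K := F)).mp h
      have h4 : (RingOfIntegers.norm ℚ (((p : ℕ) : 𝓞 F)) : ℚ) = ((p : ℕ) : ℚ) ^ Module.finrank ℚ F := by
        rw [RingOfIntegers.coe_norm]
        have h5 : (((p : ℕ) : 𝓞 F) : F) = algebraMap ℚ F ((p : ℕ) : ℚ) := by simp
        rw [h5, Algebra.norm_algebraMap]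
      rw [h4, abs_pow, Nat.abs_cast, pow_eq_one_iff_of_nonneg (by positivity)
        Module.finrank_pos.ne'] at h3
      have h6 : (p : ℕ) = 1 := by exact_mod_cast h3
      exact absurd h6 p.2.one_lt.ne'
    have h3 := Int.isUnit_iff_natAbs_eq.mp h2
    rw [Int.natAbs_natCast] at h3
    exact p.2.one_lt.ne' h3
  obtain ⟨m, hm, hle⟩ := Ideal.exists_le_maximal _ h1
  have h2 : ((p : ℕ) : 𝓞 F) ∈ m := hle (Ideal.mem_span_singleton_self _)
  refine ⟨⟨m, hm.isPrime, ?_⟩, h2⟩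
  intro hb
  rw [hb, Ideal.mem_bot] at h2
  exact p.2.ne_zero (by exact_mod_cast h2)

lemma one_le_deg {p : Nat.Primes} {v : HeightOneSpectrum (𝓞 F)} (hv : v ∈ lying F p) :
    1 ≤ deg p v := by
  have : Fact (p : ℕ).Prime := ⟨p.2⟩
  have h0 : Ideal.absNorm v.asIdeal ≠ 0 := by
    rw [Ne, Ideal.absNorm_eq_zero_iff]
    exact v.ne_bot
  have h1 : Ideal.absNorm v.asIdeal ≠ 1 := by
    rw [Ne, Ideal.absNorm_eq_one_iff]
    exact v.isPrime.ne_top
  have h2 : Ideal.absNorm v.asIdeal ∣ (p : ℕ) ^ Module.finrank ℤ (𝓞 F) := by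
    have h3 : v.asIdeal ∣ Ideal.span {((p : ℕ) : 𝓞 F)} := by
      rw [Ideal.dvd_span_singleton]
      exact hv
    have h4 := Ideal.absNorm_dvd_absNorm_of_le (Ideal.le_of_dvd h3)
    rw [Ideal.absNorm_span_singleton] at h4
    have h5 : Algebra.norm ℤ ((p : ℕ) : 𝓞 F) = ((p : ℕ) : ℤ) ^ Module.finrank ℤ (𝓞 F) := by
      have := Algebra.norm_algebraMap (S := 𝓞 F) ((p : ℕ) : ℤ)
      simpa using this
    rw [h5, Int.natAbs_pow, Int.natAbs_natCast] at h4
    exact h4
  obtain ⟨k, -, hk⟩ := (Nat.dvd_prime_pow p.2).mp h2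
  have hk0 : k ≠ 0 := by
    rintro rfl
    exact h1 (by rw [hk, pow_zero])
  unfold deg
  rw [hk, padicValNat.prime_pow]
  omega

lemma mem_places {p : Nat.Primes} {v : HeightOneSpectrum (𝓞 F)} : v ∈ places F p ↔ v ∈ lying F p := by
  rw [places, Set.Finite.mem_toFinset]

/-- A property of almost all places holds for all places above almost all primes. -/
lemma eventually_primes {P : HeightOneSpectrum (𝓞 F) → Prop} (h : ∀ᶠ v in cofinite, P v) :
    ∀ᶠ p in cofinite, ∀ v ∈ lying F p, P v := by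
  have hf : {v | ¬ P v}.Finite := h
  choose f hf2 using exists_prime F
  refine (hf.image f).subset ?_
  intro p hp
  rw [Set.mem_compl_iff] at hp
  change ¬ ∀ v ∈ lying F p, P v at hp
  push Not at hp
  obtain ⟨v, hv, hPv⟩ := hp
  exact ⟨v, hPv, prime_unique (hf2 v) hv⟩

/-- infinitely many places lie above infinitely many primes -/
lemma infinite_primes {P : HeightOneSpectrum (𝓞 F) → Prop} (h : {v | P v}.Infinite) :
    {p | ∃ v ∈ lying F p, P v}.Infinite := by
  intro hf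
  apply h
  refine (hf.biUnion fun p _ => finite_lying F p).subset ?_
  intro v hv
  obtain ⟨p, hp⟩ := exists_prime F v
  exact Set.mem_biUnion (x := p) ⟨v, hp, hv⟩ hp

/-- infinitely many primes below -/
lemma infinite_places {P : HeightOneSpectrum (𝓞 F) → Prop} {A : Set Nat.Primes} (hA : A.Infinite)
    (h : {p ∈ A | ¬ ∀ v ∈ lying F p, P v}.Finite) : {v | P v}.Infinite := by
  choose g hg using exists_place F
  have h1 : (A \ {p ∈ A | ¬ ∀ v ∈ lying F p, P v}).Infinite := hA.sdiff h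
  have hinj : Function.Injective g := fun p q hpq => prime_unique (hg p) (hpq ▸ hg q)
  refine (h1.image hinj.injOn).mono ?_
  rintro _ ⟨p, ⟨hpA, hp⟩, rfl⟩
  have h2 : ∀ v ∈ lying F p, P v := by
    by_contra hc
    exact hp ⟨hpA, hc⟩
  exact h2 _ (hg p)

end places

/-! ### The main theorem -/

section main

variable {I : IHSlopes}

omit [Abelian C] in
/-- Ordinary primes for the restriction of scalars. -/
lemma ord_res {F : Type} [Field F] [NumberField F] {X : Sch F} {n : ℤ} {M : C}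
    (hA : ∀ᶠ v in cofinite, Above (I.newton F X n v) (I.hodge F X n)) (hM : IsRes D I F X n M) :
    ∀ᶠ p in cofinite, D.Ord M p → ∀ v ∈ lying F p, I.Ord F X n v := by
  obtain ⟨h1, h2⟩ := hM
  filter_upwards [h2, eventually_primes hA] with p e1 e2 ho v hv
  unfold Slopes.Ord at ho
  rw [e1, h1] at ho
  exact eq_of_weights (places F p) (fun v => deg p v) (fun v hv => one_le_deg (mem_places.mp hv))
    (fun v => I.newton F X n v) _ (fun v hv => e2 v (mem_places.mp hv)) _ ho v (mem_places.mpr hv)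

/-- The converse over `ℚ`. -/
lemma ord_rat (hD : IsSlopes V tw ten D) {X : Sch ℚ} {n : ℤ} {M : C}
    (hA : ∀ᶠ v in cofinite, Above (I.newton ℚ X n v) (I.hodge ℚ X n)) (hM : IsRes D I ℚ X n M) :
    ∀ᶠ p in cofinite, (∃ v ∈ lying ℚ p, I.Ord ℚ X n v) → D.Ord M p := by
  obtain ⟨h1, h2⟩ := hM
  rw [Module.finrank_self, one_nsmul] at h1
  filter_upwards [h2, eventually_primes hA, hD.above M] with p e1 e2 e3
  rintro ⟨v, hv, ho⟩
  unfold Slopes.Ord
  rw [h1]
  exact eq_of_weight_one (places ℚ p) (fun v => deg p v) (fun v hv => one_le_deg (mem_places.mp hv))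
    (fun v => I.newton ℚ X n v) _ _ (fun v hv => (e2 v (mem_places.mp hv)).1)
    (by rw [e3.1, h1]) e1 v (mem_places.mpr hv) ho

variable (hV : IsWeightTheory V tw) (hD : IsSlopes V tw ten D) (hH : Hironaka ℚ)

include hV hD

/-- the closure properties -/
lemma bnd_ord {𝓕 : Filter Nat.Primes} (h𝓕 : 𝓕 ≤ cofinite) :
    Bnd True (AllPieces V fun _ M => ∀ᶠ p in 𝓕, D.Ord M p) :=
  bnd_pieces hV (twistClass hD h𝓕) (point_pieces hD h𝓕)

lemma clo_ord {𝓕 : Filter Nat.Primes} (h𝓕 : 𝓕 ≤ cofinite) :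
    Clo True (AllPieces V fun _ M => ∀ᶠ p in 𝓕, D.Ord M p) := by
  have h := bnd_ord hV hD h𝓕
  exact ⟨h.iso, h.total, h.opened, h.torus⟩

include hH in
/-- From Q1 to the systems. -/
lemma step_one (hI : IsIH V D I) (h : I.OrdinaryPrimes) {a b c : ℕ}
    (E : Fin c → Finset (Fin a × Fin b)) (w n : ℤ) :
    {p | D.Ord (V w n (sysS ℚ E)) p}.Infinite := by
  let ι : Type 1 := {X : Sch ℚ // IsSmProj X} × ℤ
  let M : ι → C := fun x => V x.2 x.2 x.1.1
  have hinf : ∀ i, {p | D.Ord (M i) p}.Infinite := by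
    rintro ⟨⟨X, hX⟩, m⟩
    have hX' : IsProjVar X := ⟨hX.integral, hX.projective⟩
    have h1 := infinite_primes (h ℚ X hX' m)
    have h2 := ord_rat hD (hI.above ℚ X hX' m) (hI.smooth X hX m)
    intro hf
    apply h1
    refine (hf.union h2).subset ?_
    intro p hp
    by_cases hc : D.Ord (V m m X) p
    · exact Or.inl hc
    · exact Or.inr fun h => hc (h hp)
  have hten : ∀ i j, ∃ k, (D.hodge (M i) ≠ 0 → D.hodge (M j) ≠ 0 → D.hodge (M k) ≠ 0) ∧
      ∀ᶠ p in cofinite, D.Ord (M k) p → D.Ord (ten (M i) (M j)) p := by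
    rintro ⟨⟨X, hX⟩, m⟩ ⟨⟨Y, hY⟩, m'⟩
    obtain ⟨Z, r, i, hZ, hs⟩ := hD.product X Y hX hY m m'
    refine ⟨⟨⟨Z, hZ⟩, i⟩, fun h1 h2 => ?_, ?_⟩
    · exact hodge_summand hD hs (hodge_twist hD r (hodge_tensor hD h1 h2))
    · filter_upwards [ord_summand hD hs, ord_twist hD r (ten (V m m X) (V m' m' Y))] with p e1 e2 e3
      exact e2.mp (e1 e3)
  obtain ⟨𝓕, hne, hle, hM⟩ := exists_filter M hD hten hinf
  have h1 : AllPieces V (fun _ M => ∀ᶠ p in 𝓕, D.Ord M p) (sysS ℚ E) :=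
    (all_smProj_iff hV (twistClass hD hle) (point_pieces hD hle) hH).mp
      (fun X hX i => hM ⟨⟨X, hX⟩, i⟩) _ (ft_aff True)
  have h2 := h1 w n
  intro hf
  have h3 : ∀ᶠ p in 𝓕, ¬ D.Ord (V w n (sysS ℚ E)) p := hle hf.compl_mem_cofinite
  obtain ⟨p, hp1, hp2⟩ := (h2.and h3).exists
  exact hp2 hp1

/-- The three-term systems. -/
abbrev Sys3 : Type :=
  Σ a : ℕ, Σ b : ℕ, Σ c : ℕ, {E : Fin c → Finset (Fin a × Fin b) // ∀ l, (E l).card ≤ 3}

/-- From the systems to one sequence of primes. -/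
lemma step_two (h : ∀ (a b c : ℕ) (E : Fin c → Finset (Fin a × Fin b)), (∀ l, (E l).card ≤ 3) →
      ∀ w n : ℤ, {p | D.Ord (V w n (sysS ℚ E)) p}.Infinite) :
    ∃ x : ℕ → Nat.Primes, Tendsto x atTop cofinite ∧ ∀ X : Sch ℚ, FT True X → ∀ w n : ℤ,
      ∀ᶠ k in atTop, D.Ord (V w n X) (x k) := by
  let ι : Type := Sys3 × ℤ × ℤ
  let M : ι → C := fun x => V x.2.1 x.2.2 (sysS ℚ x.1.2.2.2.1)
  have hten : ∀ i j, ∃ k, (D.hodge (M i) ≠ 0 → D.hodge (M j) ≠ 0 → D.hodge (M k) ≠ 0) ∧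
      ∀ᶠ p in cofinite, D.Ord (M k) p → D.Ord (ten (M i) (M j)) p := by
    rintro ⟨⟨a, b, c, E, hE⟩, w, n⟩ ⟨⟨a', b', c', E', hE'⟩, w', n'⟩
    obtain ⟨G, hG, ⟨e⟩⟩ := exists_both ℚ E E' hE hE'
    have hs := hD.kunneth (SA ℚ E) (SA ℚ E') w n w' n'
    have hft : Algebra.FiniteType ℚ (SA ℚ E ⊗[ℚ] SA ℚ E') :=
      Algebra.FiniteType.equiv (inferInstance : Algebra.FiniteType ℚ (SA ℚ G)) e.symm
    have hi : Nonempty (V (w + w') (n + n') (aff ℚ (SA ℚ E ⊗[ℚ] SA ℚ E')) ≅
        V (w + w') (n + n') (sysS ℚ G)) :=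
      hV.iso (ft_aff True) ⟨affIso e.symm⟩ _ _
    have hs2 : IsSummand (ten (V w n (sysS ℚ E)) (V w' n' (sysS ℚ E')))
        (V (w + w') (n + n') (sysS ℚ G)) := by
      obtain ⟨f, r, hfr⟩ := hs
      obtain ⟨u⟩ := hi
      refine ⟨f ≫ u.hom, u.inv ≫ r, ?_⟩
      rw [Category.assoc, Iso.hom_inv_id_assoc]
      exact hfr
    refine ⟨⟨⟨_, _, _, G, hG⟩, w + w', n + n'⟩, fun h1 h2 => ?_, ?_⟩
    · exact hodge_summand hD hs2 (hodge_tensor hD h1 h2)
    · exact ord_summand hD hs2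
  obtain ⟨x, hx, hM⟩ := exists_seq M hD hten (fun i => h _ _ _ _ i.1.2.2.2.2 _ _)
  refine ⟨x, hx, fun X hX w n => ?_⟩
  have h1 : ForThreeTerms (AllPieces V fun _ M => ∀ᶠ p in Filter.map x atTop, D.Ord M p) := by
    intro a b c E hE w n
    exact hM ⟨⟨a, b, c, E, hE⟩, w, n⟩
  exact (three_iff short_rat (clo_ord hV hD hx)).mpr h1 X hX w n

include hH in
/-- **Theorem.** -/
theorem main_one (hI : IsIH V D I) :
    (I.OrdinaryPrimes ↔ ∀ (a b c : ℕ) (E : Fin c → Finset (Fin a × Fin b)), (∀ l, (E l).card ≤ 3) →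
      ∀ w n : ℤ, {p | D.Ord (V w n (sysS ℚ E)) p}.Infinite) ∧
    (I.OrdinaryPrimes ↔ ∃ P : Set Nat.Primes, P.Infinite ∧
      ∀ (F : Type) [Field F] [NumberField F] (X : Sch F), IsProjVar X → ∀ n : ℤ,
        {p ∈ P | ¬ ∀ v ∈ lying F p, I.Ord F X n v}.Finite) := by
  have h12 : (∀ (a b c : ℕ) (E : Fin c → Finset (Fin a × Fin b)), (∀ l, (E l).card ≤ 3) →
      ∀ w n : ℤ, {p | D.Ord (V w n (sysS ℚ E)) p}.Infinite) → ∃ P : Set Nat.Primes, P.Infinite ∧
      ∀ (F : Type) [Field F] [NumberField F] (X : Sch F), IsProjVar X → ∀ n : ℤ,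
        {p ∈ P | ¬ ∀ v ∈ lying F p, I.Ord F X n v}.Finite := by
    intro h
    obtain ⟨x, hx, hX⟩ := step_two hV hD h
    refine ⟨Set.range x, ?_, ?_⟩
    · intro hf
      have h1 := hx hf.compl_mem_cofinite
      obtain ⟨k, hk⟩ := (Filter.mem_map.mp h1 |> fun h => (Filter.Eventually.exists h))
      exact hk ⟨k, rfl⟩
    · intro F _ _ X hXp n
      obtain ⟨Y, M, hY, hs, hres⟩ := hI.decomposition F X hXp n
      have hYp := hY.proper
      have h1 := hX Y ⟨inferInstance, inferInstance, fun _ => inferInstance⟩ n n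
      have h2 := hx (ord_summand hD hs)
      have h3 := hx (ord_res (hI.above F X hXp n) hres)
      have h4 : ∀ᶠ k in atTop, ∀ v ∈ lying F (x k), I.Ord F X n v := by
        filter_upwards [h1, Filter.mem_map.mp h2, Filter.mem_map.mp h3] with k e1 e2 e3
        exact e3 (e2 e1)
      rw [← Nat.cofinite_eq_atTop] at h4
      refine (Set.Finite.image x h4).subset ?_
      rintro _ ⟨⟨k, rfl⟩, hk⟩
      exact ⟨k, hk, rfl⟩
  have h20 : (∃ P : Set Nat.Primes, P.Infinite ∧
      ∀ (F : Type) [Field F] [NumberField F] (X : Sch F), IsProjVar X → ∀ n : ℤ,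
        {p ∈ P | ¬ ∀ v ∈ lying F p, I.Ord F X n v}.Finite) → I.OrdinaryPrimes := by
    rintro ⟨P, hP, h⟩ F _ _ X hX n
    exact infinite_places hP (h F X hX n)
  refine ⟨⟨fun h a b c E _ w n => step_one hV hD hH hI h E w n, fun h => h20 (h12 h)⟩,
    ⟨fun h => h12 fun a b c E _ w n => step_one hV hD hH hI h E w n, h20⟩⟩

omit hV hD [Abelian C] in
lemma finite_iff (P : Set Nat.Primes) (Q : Nat.Primes → Prop) :
    {p ∈ P | ¬ Q p}.Finite ↔ ∀ᶠ p in cofinite ⊓ 𝓟 P, Q p := by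
  rw [eventually_inf_principal, eventually_cofinite]
  have h : {p ∈ P | ¬ Q p} = {p | ¬ (p ∈ P → Q p)} := by
    ext p
    simp
  rw [h]

include hH in
/-- **Theorem**, graded by the dimension. -/
theorem main_two (P : Set Nat.Primes) (d : ℕ) :
    (∀ X : Sch ℚ, IsSmProj X → topologicalKrullDim X.left ≤ d → ∀ n : ℤ,
        {p ∈ P | ¬ D.Ord (V n n X) p}.Finite) ↔
      ∀ (a b c : ℕ) (T : Fin a → Fin b → Fin c → ℚ), (a ≤ d + 2 ∨ b ≤ d + 2 ∨ c ≤ d + 2) →
        ∀ w n : ℤ, {p ∈ P | ¬ D.Ord (V w n (hypS T)) p}.Finite := by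
  have hle : (cofinite ⊓ 𝓟 P : Filter Nat.Primes) ≤ cofinite := inf_le_left
  have h := (graded_iff hV (twistClass hD hle) (point_pieces hD hle) hH d).2
  simp only [finite_iff]
  exact h

end main

end motives

end Pool.Agent.V5helper77.OP
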